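import Pool.Agent.V1176.BiAlm

set_option autoImplicit false

open Complex ComplexConjugate Laplacian InnerProductSpace Matrix

namespace Pool.Agent.Results.MP_c27a16_an.TwoEllipses

open Pool.Agent.V1176.Bi

/-- the set `{x ∈ ℝ² : (x - c)ᵀ A (x - c) = 1}`. -/
def ellipse (c : EuclideanSpace ℝ (Fin 2)) (A : Matrix (Fin 2) (Fin 2) ℝ) :
    Set (EuclideanSpace ℝ (Fin 2)) :=
  {x | (fun i => x i - c i) ⬝ᵥ (A *ᵥ fun i => x i - c i) = 1}

/-- `S` is an ellipse: `S = {x : (x - c)ᵀ A (x - c) = 1}` with `A` real symmetric positive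
definite (circles included, arbitrary centre and orientation). -/
def IsEllipse (S : Set (EuclideanSpace ℝ (Fin 2))) : Prop :=
  ∃ (c : EuclideanSpace ℝ (Fin 2)) (A : Matrix (Fin 2) (Fin 2) ℝ), A.PosDef ∧ S = ellipse c A

theorem form_eq {A : Matrix (Fin 2) (Fin 2) ℝ} (hs : A 1 0 = A 0 1) (v : Fin 2 → ℝ) :
    v ⬝ᵥ (A *ᵥ v) = A 0 0 * v 0 ^ 2 + 2 * A 0 1 * (v 0 * v 1) + A 1 1 * v 1 ^ 2 := by
  simp [Matrix.mulVec, dotProduct, Fin.sum_univ_two, hs]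
  ring

theorem posDef_data {A : Matrix (Fin 2) (Fin 2) ℝ} (hA : A.PosDef) :
    A 1 0 = A 0 1 ∧ 0 < A 0 0 ∧ 0 < A 0 0 * A 1 1 - A 0 1 ^ 2 := by
  have hs : A 1 0 = A 0 1 := by
    have := hA.isHermitian.apply 0 1
    simpa using this
  refine ⟨hs, hA.diag_pos, ?_⟩
  have := hA.det_pos
  rw [Matrix.det_fin_two, hs] at this
  nlinarith

theorem surj_param {α : ℝ} {k : ℂ} (hα : 0 < α) (hk : ‖k‖ < 1) (ζ : ℂ) :
    ∃ w : ℂ, α * w + (α * conj k) * conj w = ζ := by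
  have hα' : (α : ℂ) ≠ 0 := by exact_mod_cast hα.ne'
  have hq : (1 - k * conj k) ≠ 0 := by
    rw [Complex.mul_conj, Complex.normSq_eq_norm_sq, ← Complex.ofReal_one, ← Complex.ofReal_sub]
    have : (1 - ‖k‖ ^ 2 : ℝ) ≠ 0 := by nlinarith [norm_nonneg k]
    exact_mod_cast this
  have hq' : (1 - conj k * k) ≠ 0 := by rwa [mul_comm]
  refine ⟨(ζ - conj k * conj ζ) / (α * (1 - k * conj k)), ?_⟩
  simp only [map_div₀, map_sub, map_mul, Complex.conj_conj, map_one, Complex.conj_ofReal]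
  field_simp
  have e : (1 - conj k * k : ℂ) = 1 - k * conj k := by ring
  rw [e]
  field_simp
  ring

/-- **Every `C⁴` (in particular every real-analytic) biharmonic function on the plane that
vanishes on two distinct ellipses is identically zero.** -/
theorem result (u : EuclideanSpace ℝ (Fin 2) → ℝ) (hu : ContDiff ℝ 4 u)
    (hb : ∀ x, Δ (Δ u) x = 0) (E₁ E₂ : Set (EuclideanSpace ℝ (Fin 2)))
    (h₁ : IsEllipse E₁) (h₂ : IsEllipse E₂) (hne : E₁ ≠ E₂)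
    (hz : ∀ x ∈ E₁ ∪ E₂, u x = 0) : ∀ x, u x = 0 := by
  obtain ⟨c₁, A₁, hA₁, rfl⟩ := h₁
  obtain ⟨c₂, A₂, hA₂, rfl⟩ := h₂
  obtain ⟨s₁, p₁, d₁⟩ := posDef_data hA₁
  obtain ⟨s₂, p₂, d₂⟩ := posDef_data hA₂
  obtain ⟨α₁, k₁, hα₁, hk₁, F₁⟩ := exists_param p₁ d₁
  obtain ⟨α₂, k₂, hα₂, hk₂, F₂⟩ := exists_param p₂ d₂
  set e := Complex.orthonormalBasisOneI.repr with he
  have e0 : ∀ z : ℂ, e z 0 = z.re := fun z => by
    rw [he, Complex.orthonormalBasisOneI_repr_apply]; rfl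
  have e1 : ∀ z : ℂ, e z 1 = z.im := fun z => by
    rw [he, Complex.orthonormalBasisOneI_repr_apply]; rfl
  have hU : ContDiff ℝ 4 (u ∘ e) := hu.comp e.toContinuousLinearEquiv.contDiff
  have hUb : ∀ z, Δ (Δ (u ∘ e)) z = 0 := by
    intro z
    rw [lap_comp, lap_comp]
    exact hb _
  obtain ⟨f, g, hf, hg, hfg⟩ := almansi hU hUb
  -- vanishing on the parametrised ellipses
  have van : ∀ (c : EuclideanSpace ℝ (Fin 2)) (A : Matrix (Fin 2) (Fin 2) ℝ) (α : ℝ) (k : ℂ),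
      A 1 0 = A 0 1 → (∀ w : ℂ,
      A 0 0 * (α * w + (α * conj k) * conj w).re ^ 2 +
        2 * A 0 1 * ((α * w + (α * conj k) * conj w).re * (α * w + (α * conj k) * conj w).im) +
        A 1 1 * (α * w + (α * conj k) * conj w).im ^ 2 = ‖w‖ ^ 2) →
      (∀ x ∈ ellipse c A, u x = 0) → ∀ w : ℂ, ‖w‖ = 1 →
      (conj ((⟨c 0, c 1⟩ : ℂ) + α * w + (α * conj k) * conj w) *
        f ((⟨c 0, c 1⟩ : ℂ) + α * w + (α * conj k) * conj w) +
        g ((⟨c 0, c 1⟩ : ℂ) + α * w + (α * conj k) * conj w)).re = 0 := by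
    intro c A α k hs hF hv w hw
    rw [← hfg]
    apply hv
    change (fun i => _) ⬝ᵥ (A *ᵥ fun i => _) = 1
    rw [form_eq hs]
    rw [e0, e1]
    have a1 : ((⟨c 0, c 1⟩ : ℂ) + α * w + (α * conj k) * conj w).re - c 0 =
        (α * w + (α * conj k) * conj w).re := by
      rw [add_assoc, Complex.add_re]; simp
    have a2 : ((⟨c 0, c 1⟩ : ℂ) + α * w + (α * conj k) * conj w).im - c 1 =
        (α * w + (α * conj k) * conj w).im := by
      rw [add_assoc, Complex.add_im]; simp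
    rw [a1, a2, hF w, hw]; norm_num
  have v₁ := van c₁ A₁ α₁ k₁ s₁ F₁ (fun x hx => hz x (Or.inl hx))
  have v₂ := van c₂ A₂ α₂ k₂ s₂ F₂ (fun x hx => hz x (Or.inr hx))
  have hne' : ¬ ((⟨c₁ 0, c₁ 1⟩ : ℂ) = ⟨c₂ 0, c₂ 1⟩ ∧ α₁ = α₂ ∧ k₁ = k₂) := by
    rintro ⟨hc, hα, hk⟩
    apply hne
    have hc0 : c₁ 0 = c₂ 0 := congrArg Complex.re hc
    have hc1 : c₁ 1 = c₂ 1 := congrArg Complex.im hc
    subst hα hk
    ext x
    have hx : (fun i => x i - c₂ i) = fun i => x i - c₁ i := by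
      funext i
      fin_cases i
      · simp [hc0]
      · simp [hc1]
    change (fun i => x i - c₁ i) ⬝ᵥ (A₁ *ᵥ fun i => x i - c₁ i) = 1 ↔
      (fun i => x i - c₂ i) ⬝ᵥ (A₂ *ᵥ fun i => x i - c₂ i) = 1
    rw [hx, form_eq s₁, form_eq s₂]
    obtain ⟨w, hw⟩ := surj_param hα₁ hk₁ (⟨x 0 - c₁ 0, x 1 - c₁ 1⟩ : ℂ)
    have g1 := F₁ w
    have g2 := F₂ w
    rw [hw] at g1 g2
    simp only at g1 g2
    rw [g1, g2]
  have hzero := zero_of_two_ellipses hf hg hα₁ hk₁ hα₂ hk₂ v₁ v₂ hne'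
  intro x
  have := hfg (e.symm x)
  rw [hzero] at this
  simpa using this

end Pool.Agent.Results.MP_c27a16_an.TwoEllipses
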